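import Mathlib

namespace Pool.Agent.H278Z.Tk

open Set Filter Cardinal

/-- completeness with respect to the index type `T` -/
def Cpl {Ω : Type} (F : Ultrafilter Ω) (T : Type) : Prop :=
  ∀ A : T → Set Ω, (∀ t, A t ∈ F) → (⋂ t, A t) ∈ F

section

variable {Ω : Type} {F : Ultrafilter Ω} {T T' : Type}

theorem Cpl.const (h : Cpl F T) (φ : Ω → T) : ∃ t, {ω | φ ω = t} ∈ F := by
  by_contra hn
  push Not at hn
  obtain ⟨ω, hω⟩ := F.nonempty_of_mem (h (fun t => {ω | φ ω = t}ᶜ)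
    fun t => Ultrafilter.compl_mem_iff_notMem.2 (hn t))
  exact mem_iInter.1 hω (φ ω) rfl

theorem cpl_of_const (h : ∀ φ : Ω → T, ∃ t, {ω | φ ω = t} ∈ F) : Cpl F T := by
  intro A hA
  by_contra hn
  have h1 := Ultrafilter.compl_mem_iff_notMem.2 hn
  obtain ⟨ω0, hω0⟩ := F.nonempty_of_mem h1
  have h2 : ∀ ω, ∃ t, ω ∈ (⋂ t, A t)ᶜ → ω ∉ A t := by
    intro ω
    by_cases hω : ω ∈ (⋂ t, A t)ᶜ
    · obtain ⟨t, ht⟩ : ∃ t, ω ∉ A t := by simpa using hω
      exact ⟨t, fun _ => ht⟩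
    · obtain ⟨t, -⟩ : ∃ t, ω0 ∉ A t := by simpa using hω0
      exact ⟨t, fun h' => absurd h' hω⟩
  choose φ hφ using h2
  obtain ⟨t, ht⟩ := h φ
  obtain ⟨ω, ⟨a, b⟩, c⟩ := F.nonempty_of_mem (inter_mem (inter_mem ht h1) (hA t))
  have a' : φ ω = t := a
  exact hφ ω b (a' ▸ c)

theorem Cpl.arrow (h : Cpl F T) (h' : Cpl F T') : Cpl F (T → T') := by
  refine cpl_of_const fun φ => ?_
  choose c hc using fun t => h'.const fun ω => φ ω t
  exact ⟨c, mem_of_superset (h _ hc) fun ω hω => funext fun t => mem_iInter.1 hω t⟩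

theorem cpl_finite [Finite T] : Cpl F T := fun _ hA => iInter_mem.2 hA

theorem Cpl.set (h : Cpl F T) : Cpl F (Set T) := h.arrow (T' := Prop) cpl_finite

theorem Cpl.prod (h : Cpl F T) (h' : Cpl F T') : Cpl F (T × T') := by
  refine cpl_of_const fun φ => ?_
  obtain ⟨a, ha⟩ := h.const fun ω => (φ ω).1
  obtain ⟨b, hb⟩ := h'.const fun ω => (φ ω).2
  exact ⟨(a, b), mem_of_superset (inter_mem ha hb) fun ω hω => Prod.ext hω.1 hω.2⟩

theorem exists_uf (P : Set Ω → Prop) (hu : P univ) (hm : ∀ A B, P A → A ⊆ B → P B)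
    (hi : ∀ A B, P A → P B → P (A ∩ B)) (hc : ∀ A, ¬ P Aᶜ ↔ P A) :
    ∃ W : Ultrafilter Ω, ∀ A, A ∈ W ↔ P A :=
  ⟨Ultrafilter.ofComplNotMemIff ⟨{A | P A}, hu, fun a b => hm _ _ a b, fun a b => hi _ _ a b⟩ hc,
    fun _ => Iff.rfl⟩

end

theorem bernstein {S T : Type} (I : S → Set T) : ∃ col : T → Bool, ∀ s,
    ¬ #(I s) ≤ #(S × Bool) → ∀ b, ∃ t ∈ I s, col t = b := by
  classical
  let r : S × Bool → S × Bool → Prop := WellOrderingRel
  have wf : WellFounded r := (WellOrderingRel.isWellOrder (α := S × Bool)).wf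
  let G : (i : S × Bool) → ((j : S × Bool) → r j i → Option T) → Option T := fun i g =>
    if h : ∃ t ∈ I i.1, ∀ j (hj : r j i), g j hj ≠ some t then some h.choose else none
  let c : S × Bool → Option T := wf.fix G
  have hc : ∀ i, c i = G i fun j _ => c j := fun i => wf.fix_eq G i
  have h1 : ∀ i t, c i = some t → t ∈ I i.1 ∧ ∀ j, r j i → c j ≠ some t := by
    intro i t h
    rw [hc] at h
    simp only [G] at h
    split_ifs at h with h'
    obtain rfl := Option.some.inj h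
    exact h'.choose_spec
  have h2 : ∀ i : S × Bool, ¬ #(I i.1) ≤ #(S × Bool) → ∃ t, c i = some t := by
    intro i hi
    have : ∃ t ∈ I i.1, ∀ j (_ : r j i), c j ≠ some t := by
      by_contra hn
      push Not at hn
      choose k _ hk using hn
      refine hi (Cardinal.mk_le_of_injective (f := fun t : I i.1 => k t.1 t.2) fun t t' e => ?_)
      have e1 := hk t.1 t.2
      have e2 := hk t'.1 t'.2
      simp only at e
      rw [e, e2] at e1
      exact Subtype.ext (Option.some.inj e1).symm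
    rw [hc]
    exact ⟨_, dif_pos this⟩
  have h3 : ∀ i j t, c i = some t → c j = some t → i = j := by
    intro i j t a b
    rcases trichotomous_of r i j with e | e | e
    · exact absurd a ((h1 j t b).2 i e)
    · exact e
    · exact absurd b ((h1 i t a).2 j e)
  refine ⟨fun t => decide (∃ s, c (s, true) = some t), fun s hs b => ?_⟩
  obtain ⟨t, ht⟩ := h2 (s, b) hs
  refine ⟨t, (h1 _ _ ht).1, ?_⟩
  cases b with
  | true => exact decide_eq_true ⟨s, ht⟩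
  | false =>
    refine decide_eq_false ?_
    rintro ⟨s', h'⟩
    exact absurd (h3 _ _ t ht h') (by simp)

theorem tarski {Ω S L : Type} (Pos : S → Set Ω → Prop) (hm : ∀ s A B, Pos s A → A ⊆ B → Pos s B)
    (hc : ∀ s (p : Ω → S → L → Bool) A, Pos s A → ∃ t, Pos s (A ∩ p ⁻¹' {t})) :
    ∃ p : Ω → S → L → Bool, ∀ s, #{t | Pos s (p ⁻¹' {t})} < #L → ∀ t, Pos s (p ⁻¹' {t}) →
      ∀ B, ¬ (Pos s (p ⁻¹' {t} ∩ B) ∧ Pos s (p ⁻¹' {t} \ B)) := by
  classical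
  let r : L → L → Prop := WellOrderingRel
  have wf : WellFounded r := (WellOrderingRel.isWellOrder (α := L)).wf
  have h1 : ∀ s (B : Set Ω), ∃ C : Set Ω, (∃ C', Pos s (B ∩ C') ∧ Pos s (B \ C')) →
      Pos s (B ∩ C) ∧ Pos s (B \ C) := by
    intro s B
    by_cases h : ∃ C', Pos s (B ∩ C') ∧ Pos s (B \ C')
    · exact ⟨h.choose, fun _ => h.choose_spec⟩
    · exact ⟨∅, fun h' => absurd h' h⟩
  choose sp hsp using h1
  let G : S → (l : L) → ((j : L) → r j l → Ω → Bool) → Ω → Bool := fun s l g ω =>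
    decide (ω ∈ sp s {ω' | ∀ j (hj : r j l), g j hj ω' = g j hj ω})
  let η : S → L → Ω → Bool := fun s => wf.fix (G s)
  have hη : ∀ s l ω, η s l ω = decide (ω ∈ sp s {ω' | ∀ j, r j l → η s j ω' = η s j ω}) :=
    fun s l ω => congrFun (wf.fix_eq (G s) l) ω
  let p : Ω → S → L → Bool := fun ω s l => η s l ω
  refine ⟨p, fun s hs t ht B hB => absurd hs (not_lt.2 ?_)⟩
  have key : ∀ l, ∃ τ : S → L → Bool, Pos s (p ⁻¹' {τ}) ∧ (∀ j, r j l → τ s j = t s j) ∧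
      τ s l ≠ t s l := by
    intro l
    let D : Set Ω := {ω' | ∀ j, r j l → η s j ω' = t s j}
    have hD : p ⁻¹' {t} ⊆ D := fun ω hω j _ => by
      have : p ω = t := hω
      rw [← this]
    have h2 := hsp s D ⟨B, hm _ _ _ hB.1 (inter_subset_inter_left _ hD),
      hm _ _ _ hB.2 (sdiff_subset_sdiff_left hD)⟩
    have h3 : ∀ ω ∈ D, η s l ω = decide (ω ∈ sp s D) := by
      intro ω hω
      rw [hη]
      have : {ω' | ∀ j, r j l → η s j ω' = η s j ω} = D := by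
        ext ω'
        exact forall₂_congr fun j hj => by rw [hω j hj]
      rw [this]
    have h4 : Pos s {ω | ω ∈ D ∧ η s l ω ≠ t s l} := by
      cases h : t s l with
      | true => exact hm _ _ _ h2.2 fun ω hω => ⟨hω.1, by simp [h3 ω hω.1, hω.2]⟩
      | false => exact hm _ _ _ h2.1 fun ω hω => ⟨hω.1, by simp [h3 ω hω.1, hω.2]⟩
    obtain ⟨τ, hτ⟩ := hc s p _ h4
    by_cases hne : ({ω | ω ∈ D ∧ η s l ω ≠ t s l} ∩ p ⁻¹' {τ}).Nonempty
    · obtain ⟨ω, ⟨a, b⟩, c⟩ := hne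
      have c' : p ω = τ := c
      exact ⟨τ, hm _ _ _ hτ inter_subset_right, fun j hj => c' ▸ a j hj, c' ▸ b⟩
    · rw [not_nonempty_iff_eq_empty] at hne
      rw [hne] at hτ
      exact ⟨fun s' j => if j = l then !t s l else t s' j, hm _ _ _ hτ (empty_subset _),
        fun j hj => if_neg fun e : j = l => irrefl_of r l (e ▸ hj), by simp⟩
  choose τ τ1 τ2 τ3 using key
  refine Cardinal.mk_le_of_injective (f := fun l => ⟨τ l, τ1 l⟩) fun l l' e => ?_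
  have e' : τ l = τ l' := congrArg Subtype.val e
  rcases trichotomous_of r l l' with h | h | h
  · exact absurd (e' ▸ τ2 l' l h) (τ3 l)
  · exact h
  · exact absurd (e'.symm ▸ τ2 l l' h) (τ3 l')

variable {K : Type} [LinearOrder K] [WellFoundedLT K]

/-- normal measures -/
structure NM (U : Ultrafilter K) : Prop where
  cpl : ∀ x : K, Cpl U (Iio x)
  cnt : Cpl U ℕ
  np : ∀ y, {x | x = y} ∉ U
  reg : ∀ f : K → K, {x | f x < x} ∈ U → ∃ y, {x | f x = y} ∈ U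

/-- monotone cofinal maps -/
def TK {Ω : Type} (U : Ultrafilter K) (V : Ultrafilter Ω) (f : Set K → Set Ω) : Prop :=
  Monotone f ∧ (∀ X ∈ U, f X ∈ V) ∧ ∀ A ∈ V, ∃ X ∈ U, f X ⊆ A

variable {U : Ultrafilter K} {Ω : Type} {V : Ultrafilter Ω} {f : Set K → Set Ω}

omit [LinearOrder K] [WellFoundedLT K] in
theorem TK.cpl (h : TK U V f) {T : Type} (hT : Cpl U T) : Cpl V T := by
  intro A hA
  choose X h1 h2 using fun t => h.2.2 _ (hA t)
  exact mem_of_superset (h.2.1 _ (hT X h1))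
    (subset_iInter fun t => (h.1 (iInter_subset X t)).trans (h2 t))

omit [WellFoundedLT K] in
theorem above {π : Ω → K} (hc : ∀ x : K, Cpl V (Iio x)) (hn : ∀ y, {ω | π ω = y} ∉ V) (y : K) :
    {ω | y < π ω} ∈ V := by
  have h1 := hc y (fun x => {ω | π ω = x}ᶜ) fun x => Ultrafilter.compl_mem_iff_notMem.2 (hn x)
  refine mem_of_superset (inter_mem h1 (Ultrafilter.compl_mem_iff_notMem.2 (hn y))) ?_
  rintro ω ⟨a, b⟩
  rcases lt_trichotomy (π ω) y with e | e | e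
  · exact absurd rfl (mem_iInter.1 a ⟨π ω, e⟩)
  · exact absurd e b
  · exact e

omit [WellFoundedLT K] in
theorem diag {π : Ω → K} (hr : ∀ g : Ω → K, {ω | g ω < π ω} ∈ V → ∃ y, {ω | g ω = y} ∈ V)
    (A : K → Set Ω) (hA : ∀ x, A x ∈ V) : {ω | ∀ x < π ω, ω ∈ A x} ∈ V := by
  by_contra hn
  have h1 := Ultrafilter.compl_mem_iff_notMem.2 hn
  have h2 : ∀ ω, ∃ x, ω ∈ {ω | ∀ x < π ω, ω ∈ A x}ᶜ → x < π ω ∧ ω ∉ A x := by
    intro ω
    by_cases hω : ω ∈ {ω | ∀ x < π ω, ω ∈ A x}ᶜ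
    · obtain ⟨x, hx⟩ : ∃ x, x < π ω ∧ ω ∉ A x := by simpa using hω
      exact ⟨x, fun _ => hx⟩
    · exact ⟨π ω, fun h' => absurd h' hω⟩
  choose g hg using h2
  obtain ⟨y, hy⟩ := hr g (mem_of_superset h1 fun ω hω => (hg ω hω).1)
  obtain ⟨ω, ⟨a, b⟩, c⟩ := V.nonempty_of_mem (inter_mem (inter_mem hy h1) (hA y))
  have a' : g ω = y := a
  exact (hg ω b).2 (a' ▸ c)

omit [WellFoundedLT K] in
theorem ineff {π : Ω → K} (hr : ∀ g : Ω → K, {ω | g ω < π ω} ∈ V → ∃ y, {ω | g ω = y} ∈ V)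
    (φ : Ω → Set K) : ∃ Z : Set K, {ω | ∀ x < π ω, (x ∈ φ ω ↔ x ∈ Z)} ∈ V := by
  refine ⟨{x | {ω | x ∈ φ ω} ∈ V}, diag hr (fun x => {ω | x ∈ φ ω ↔ {ω | x ∈ φ ω} ∈ V}) fun x => ?_⟩
  by_cases h : {ω | x ∈ φ ω} ∈ V
  · exact mem_of_superset h fun ω hω => ⟨fun _ => h, fun _ => hω⟩
  · exact mem_of_superset (Ultrafilter.compl_mem_iff_notMem.2 h)
      fun ω hω => ⟨fun a => absurd a hω, fun a => absurd a h⟩

theorem exists_min (hc : Cpl V ℕ) (h : ∃ φ : Ω → K, ∀ y, {ω | φ ω = y} ∉ V) :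
    ∃ π : Ω → K, (∀ y, {ω | π ω = y} ∉ V) ∧
      ∀ g : Ω → K, {ω | g ω < π ω} ∈ V → ∃ y, {ω | g ω = y} ∈ V := by
  have wf : WellFounded fun g g' : Ω → K => {ω | g ω < g' ω} ∈ V := by
    rw [wellFounded_iff_isEmpty_descending_chain]
    refine ⟨fun ⟨s, hs⟩ => ?_⟩
    obtain ⟨ω, hω⟩ := V.nonempty_of_mem (hc _ hs)
    exact (wellFounded_iff_isEmpty_descending_chain.1 (wellFounded_lt (α := K))).false
      ⟨fun n => s n ω, fun n => mem_iInter.1 hω n⟩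
  obtain ⟨π, h1, h2⟩ := wf.has_min {φ | ∀ y, {ω | φ ω = y} ∉ V} h
  refine ⟨π, h1, fun g hg => ?_⟩
  by_contra hn
  push Not at hn
  exact h2 g hn hg

theorem eq_of_normal (hU : NM U) {W : Ultrafilter K} {f : Set K → Set K} (h : TK U W f)
    (hn : ∀ y, {x | x = y} ∉ W) (hr : ∀ g : K → K, {x | g x < x} ∈ W → ∃ y, {x | g x = y} ∈ W) :
    W = U := by
  classical
  by_contra hne
  obtain ⟨Y0, hY1, hY2⟩ : ∃ Y0, Y0 ∈ W ∧ Y0ᶜ ∈ U := by
    by_contra hc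
    push Not at hc
    exact hne (Ultrafilter.coe_le_coe.1 fun A hA =>
      Ultrafilter.compl_notMem_iff.1 (hc A hA)).symm
  let Fo : K → Set K → Prop := fun ν s => ∀ Z ∈ U, ν ∈ f ((s ∩ Iio ν) ∪ (Z ∩ Ioi ν))
  have hFo : ∀ ν s s', (∀ x < ν, x ∈ s ↔ x ∈ s') → Fo ν s → Fo ν s' := by
    intro ν s s' e hs Z hZ
    have : s' ∩ Iio ν = s ∩ Iio ν := Set.ext fun x => and_congr_left fun hx => (e x hx).symm
    rw [this]
    exact hs Z hZ
  have h1 : ∀ ν, ∃ Z ∈ U, ∀ s, ν ∈ f ((s ∩ Iio ν) ∪ (Z ∩ Ioi ν)) → Fo ν s := by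
    intro ν
    have : ∀ σ : Set (Iio ν), ∃ Z ∈ U, ν ∈ f ((Subtype.val '' σ ∩ Iio ν) ∪ (Z ∩ Ioi ν)) →
        Fo ν (Subtype.val '' σ) := by
      intro σ
      by_cases hσ : Fo ν (Subtype.val '' σ)
      · exact ⟨univ, univ_mem, fun _ => hσ⟩
      · obtain ⟨Z, a, b⟩ : ∃ Z ∈ U, ν ∉ f ((Subtype.val '' σ ∩ Iio ν) ∪ (Z ∩ Ioi ν)) := by
          simpa [Fo] using hσ
        exact ⟨Z, a, fun c => absurd c b⟩
    choose Z a b using this
    refine ⟨_, (hU.cpl ν).set Z a, fun s hs => hFo ν _ s ?_ (b (Subtype.val ⁻¹' s) (h.1 ?_ hs))⟩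
    · intro x hx
      exact ⟨fun ⟨y, c, d⟩ => d ▸ c, fun c => ⟨⟨x, hx⟩, c, rfl⟩⟩
    · exact union_subset_union (fun x hx => ⟨⟨⟨x, hx.2⟩, hx.1, rfl⟩, hx.2⟩)
        (inter_subset_inter_left _ (iInter_subset _ _))
  choose Z hZ1 hZ2 using h1
  have hD := diag (V := U) (π := id) hU.reg Z hZ1
  have h2 : ∀ X ∈ U, {ν | Fo ν X} ∈ W := by
    intro X hX
    refine mem_of_superset (inter_mem (h.2.1 _ (inter_mem (inter_mem hX hY2) hD)) hY1) ?_
    rintro ν ⟨a, b⟩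
    refine hZ2 ν X (h.1 ?_ a)
    rintro x ⟨⟨c, d⟩, e⟩
    rcases lt_trichotomy x ν with e' | e' | e'
    · exact Or.inl ⟨c, e'⟩
    · exact absurd (e' ▸ b) d
    · exact Or.inr ⟨e ν e', e'⟩
  let G : (ν : K) → ((μ : K) → μ < ν → Prop) → Prop := fun ν g =>
    ¬ ∃ s, Fo ν s ∧ ∀ μ (hμ : μ < ν), Fo μ s → g μ hμ
  let Y : K → Prop := (wellFounded_lt (α := K)).fix G
  have hY : ∀ ν, Y ν = ¬ ∃ s, Fo ν s ∧ ∀ μ < ν, Fo μ s → Y μ := fun ν =>
    (wellFounded_lt (α := K)).fix_eq G ν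
  by_cases hYW : {ν | Y ν} ∈ W
  · obtain ⟨X, a, b⟩ := h.2.2 _ hYW
    have c : ∀ ν, Fo ν X → Y ν := fun ν hν =>
      b (h.1 (union_subset inter_subset_left inter_subset_left) (hν X a))
    obtain ⟨ν, hν⟩ := W.nonempty_of_mem (h2 X a)
    have d := c ν hν
    rw [hY] at d
    exact d ⟨X, hν, fun μ _ => c μ⟩
  · have h3 : ∀ ν, ∃ s, ¬ Y ν → Fo ν s ∧ ∀ μ < ν, Fo μ s → Y μ := by
      intro ν
      by_cases hν : Y ν
      · exact ⟨∅, fun h' => absurd hν h'⟩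
      · rw [hY, not_not] at hν
        exact ⟨hν.choose, fun _ => hν.choose_spec⟩
    choose s hs using h3
    obtain ⟨X, hX⟩ := ineff (V := W) (π := id) hr s
    have h4 := inter_mem hX (Ultrafilter.compl_mem_iff_notMem.2 hYW)
    obtain ⟨μ, a, b⟩ := W.nonempty_of_mem h4
    obtain ⟨ν, ⟨c, d⟩, e⟩ := W.nonempty_of_mem (inter_mem h4
      (above (π := id) (fun x => h.cpl (hU.cpl x)) hn μ))
    refine b ((hs ν d).2 μ e (hFo μ _ _ (fun x hx => ?_) (hs μ b).1))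
    exact (a x hx).trans (c x (hx.trans e)).symm

end Pool.Agent.H278Z.Tk
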