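import Mathlib

namespace Pool.Agent.H278Z.Tk

/-- The Fubini power `U^n`, as an ultrafilter on lists: `U^0` is principal at the empty list and
`U^(n+1) = U · U^n`, the head of the list being the first coordinate. -/
noncomputable def fub {K : Type} (U : Ultrafilter K) : ℕ → Ultrafilter (List K)
  | 0 => pure []
  | n + 1 => U.bind fun a => Ultrafilter.map (List.cons a) (fub U n)

end Pool.Agent.H278Z.Tk
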