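import Pool.Agent.H278Z.Tk.A
import Pool.Agent.H278Z.Tk.Defs

namespace Pool.Agent.H278Z.Tk

open Set Filter Cardinal

variable {K : Type} [LinearOrder K] [WellFoundedLT K] {U : Ultrafilter K} {Ω : Type}
  {V : Ultrafilter Ω} {f : Set K → Set Ω}

theorem mem_bind_iff {α β : Type} {F : Ultrafilter α} {m : α → Ultrafilter β} {s : Set β} :
    s ∈ F.bind m ↔ {a | s ∈ m a} ∈ F := Iff.rfl

/-- splice of two sets at `ν` -/
def base (ν : K) (s Z : Set K) : Set K := {x | (x < ν ∧ x ∈ s) ∨ x = ν ∨ (ν < x ∧ x ∈ Z)}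

omit [WellFoundedLT K] in
theorem base_mono {ν : K} {s Z Z' : Set K} (h : Z ⊆ Z') : base ν s Z ⊆ base ν s Z' := by
  rintro x (a | a | a)
  · exact Or.inl a
  · exact Or.inr (Or.inl a)
  · exact Or.inr (Or.inr ⟨a.1, h a.2⟩)

/-- the local filters -/
def Fl (U : Ultrafilter K) (f : Set K → Set Ω) (π : Ω → K) (ν : K) (s : Set K) (A : Set Ω) : Prop :=
  ∃ Z ∈ U, ∀ ω ∈ f (base ν s Z), π ω = ν → ω ∈ A

variable {π : Ω → K}

omit [WellFoundedLT K] in
theorem Fl.mono {ν : K} {s : Set K} {A B : Set Ω} (h : Fl U f π ν s A) (hAB : A ⊆ B) :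
    Fl U f π ν s B := by
  obtain ⟨Z, a, b⟩ := h
  exact ⟨Z, a, fun ω c d => hAB (b ω c d)⟩

omit [WellFoundedLT K] in
theorem Fl.iInter (hf : Monotone f) {T : Type} (hT : Cpl U T) {ν : K} {s : Set K}
    {A : T → Set Ω} (h : ∀ t, Fl U f π ν s (A t)) : Fl U f π ν s (⋂ t, A t) := by
  choose Z a b using h
  exact ⟨_, hT Z a, fun ω c d => mem_iInter.2 fun t =>
    b t ω (hf (base_mono (iInter_subset Z t)) c) d⟩

omit [WellFoundedLT K] in
theorem Fl.inter (hf : Monotone f) {ν : K} {s : Set K} {A B : Set Ω} (h : Fl U f π ν s A)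
    (h' : Fl U f π ν s B) : Fl U f π ν s (A ∩ B) := by
  obtain ⟨Z, a, b⟩ := h
  obtain ⟨Z', a', b'⟩ := h'
  exact ⟨_, inter_mem a a', fun ω c d => ⟨b ω (hf (base_mono inter_subset_left) c) d,
    b' ω (hf (base_mono inter_subset_right) c) d⟩⟩

omit [WellFoundedLT K] in
theorem fl_mem (hU : NM U) (h : TK U V f) (hπ : V.map π = U) {X : Set K} (hX : X ∈ U)
    {A : K → Set Ω} (hA : {ν | Fl U f π ν X (A ν)} ∈ U) : {ω | ω ∈ A (π ω)} ∈ V := by
  have h1 : ∀ ν, ∃ Z ∈ U, Fl U f π ν X (A ν) → ∀ ω ∈ f (base ν X Z), π ω = ν → ω ∈ A ν := by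
    intro ν
    by_cases e : Fl U f π ν X (A ν)
    · obtain ⟨Z, a, b⟩ := e
      exact ⟨Z, a, fun _ => b⟩
    · exact ⟨univ, univ_mem, fun e' => absurd e' e⟩
  choose Z a b using h1
  have h2 := inter_mem hX (diag (V := U) (π := id) hU.reg Z a)
  have h3 : π ⁻¹' {ν | Fl U f π ν X (A ν)} ∈ V := by
    rw [← Ultrafilter.mem_map, hπ]
    exact hA
  refine mem_of_superset (inter_mem (h.2.1 _ h2) h3) ?_
  rintro ω ⟨c, d⟩
  refine b _ d ω (h.1 ?_ c) rfl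
  rintro x ⟨e1, e2⟩
  rcases lt_trichotomy x (π ω) with e | e | e
  · exact Or.inl ⟨e, e1⟩
  · exact Or.inr (Or.inl e)
  · exact Or.inr (Or.inr ⟨e, e2 _ e⟩)

omit [WellFoundedLT K] in
theorem decomp0 (hU : NM U) (h : TK U V f) (hπ : V.map π = U)
    (hr : ∀ g : Ω → K, {ω | g ω < π ω} ∈ V → ∃ y, {ω | g ω = y} ∈ V) :
    ∃ W : K → Ultrafilter Ω, V = U.bind W ∧ {ν | {ω | π ω = ν} ∈ W ν ∧ ∃ g, TK U (W ν) g} ∈ U := by
  classical
  let Pos : (ν : K) → Set (Iio ν) → Set Ω → Prop := fun ν σ A =>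
    ¬ Fl U f π ν (Subtype.val '' σ) Aᶜ
  have hT : ∀ ν : K, Cpl U (Set (Iio ν) → Set (Set (Iio ν) × Bool) → Bool) := fun ν =>
    (hU.cpl ν).set.arrow (((hU.cpl ν).set.prod cpl_finite).set.arrow cpl_finite)
  have hp := fun ν : K => tarski (L := Set (Set (Iio ν) × Bool)) (Pos ν)
    (fun s A B a b c => a (c.mono (compl_subset_compl.2 b))) (by
      intro s p A hA
      by_contra hn
      push Not at hn
      simp only [Pos, not_not] at hn
      refine hA ((Fl.iInter h.1 (hT ν) hn).mono fun ω hω hA => ?_)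
      exact mem_iInter.1 hω (p ω) ⟨hA, rfl⟩)
  choose p hp using hp
  choose col hcol using fun ν : K => bernstein fun σ : Set (Iio ν) => {t | Pos ν σ (p ν ⁻¹' {t})}
  obtain ⟨b, hb⟩ := (cpl_finite (F := V)).const fun ω => col (π ω) (p (π ω) ω)
  obtain ⟨X, hX, hXb⟩ := h.2.2 _ hb
  have hval : ∀ ν : K, ∀ A, Fl U f π ν (Subtype.val '' (Subtype.val ⁻¹' X : Set (Iio ν))) A ↔
      Fl U f π ν X A := by
    intro ν A
    have : ∀ Z, base ν (Subtype.val '' (Subtype.val ⁻¹' X : Set (Iio ν))) Z = base ν X Z := by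
      intro Z
      ext x
      refine or_congr_left (and_congr_right fun hx => ?_)
      exact ⟨fun ⟨y, c, d⟩ => d ▸ c, fun c => ⟨⟨x, hx⟩, c, rfl⟩⟩
    simp only [Fl, this]
  have hsmall : ∀ ν ∈ X, #{t | Pos ν (Subtype.val ⁻¹' X) (p ν ⁻¹' {t})} ≤
      #(Set (Iio ν) × Bool) := by
    intro ν hν
    by_contra hn
    obtain ⟨t, t1, t2⟩ := hcol ν _ hn (!b)
    refine t1 ((hval ν _).2 ⟨X, hX, fun ω c d e => ?_⟩)
    have c' : col (π ω) (p (π ω) ω) = b := hXb (h.1 (by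
      rintro x (a | a | a)
      · exact a.2
      · exact a ▸ hν
      · exact a.2) c)
    subst d
    have e' : p (π ω) ω = t := e
    rw [e', t2] at c'
    exact absurd c' (by simp)
  have he : ∀ ν : K, ∃ e : (Set (Iio ν) → Set (Set (Iio ν) × Bool) → Bool) → Set (Iio ν) × Bool,
      ν ∈ X → InjOn e {t | Pos ν (Subtype.val ⁻¹' X) (p ν ⁻¹' {t})} := by
    intro ν
    by_cases hν : ν ∈ X
    · obtain ⟨e⟩ := (Cardinal.le_def _ _).1 (hsmall ν hν)
      refine ⟨fun t => if ht : t ∈ {t | Pos ν (Subtype.val ⁻¹' X) (p ν ⁻¹' {t})} then e ⟨t, ht⟩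
        else (∅, true), fun _ t ht t' ht' htt => ?_⟩
      simp only [dif_pos ht, dif_pos ht'] at htt
      exact congrArg Subtype.val (e.injective htt)
    · exact ⟨fun _ => (∅, true), fun h' => absurd h' hν⟩
  choose e he using he
  have hG : {ω | ω ∈ (fun ν => {ω | Pos ν (Subtype.val ⁻¹' X) (p ν ⁻¹' {p ν ω})}) (π ω)} ∈ V := by
    refine fl_mem hU h hπ hX
      (A := fun ν => {ω | Pos ν (Subtype.val ⁻¹' X) (p ν ⁻¹' {p ν ω})}) (univ_mem' fun ν => ?_)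
    refine (Fl.iInter h.1 (hT ν) (A := fun t => {ω | Pos ν (Subtype.val ⁻¹' X) (p ν ⁻¹' {t}) ∨
      p ν ω ≠ t}) fun t => ?_).mono fun ω hω => (mem_iInter.1 hω (p ν ω)).resolve_right (by simp)
    by_cases ht : Pos ν (Subtype.val ⁻¹' X) (p ν ⁻¹' {t})
    · exact ⟨univ, univ_mem, fun ω _ _ => Or.inl ht⟩
    · exact ((hval ν _).1 (not_not.1 ht)).mono fun ω hω => Or.inr hω
  obtain ⟨b0, hb0⟩ := (cpl_finite (F := V)).const fun ω => (e (π ω) (p (π ω) ω)).2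
  obtain ⟨Z, hZ⟩ := ineff hr fun ω => Subtype.val '' (e (π ω) (p (π ω) ω)).1
  let A : K → Set Ω := fun ν => {ω | Pos ν (Subtype.val ⁻¹' X) (p ν ⁻¹' {p ν ω}) ∧
    e ν (p ν ω) = (Subtype.val ⁻¹' Z, b0)}
  have hA : {ω | ω ∈ A (π ω)} ∈ V := by
    refine mem_of_superset (inter_mem hG (inter_mem hb0 hZ)) ?_
    rintro ω ⟨c1, c2, c3⟩
    refine ⟨c1, Prod.ext ?_ c2⟩
    ext x
    rw [mem_preimage, ← c3 x.1 x.2]
    exact (Subtype.val_injective.mem_set_image).symm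
  have hW : ∀ ν, ∃ W : Ultrafilter Ω, ν ∈ X → (A ν).Nonempty →
      ∀ B, B ∈ W ↔ Fl U f π ν X ((A ν)ᶜ ∪ B) := by
    intro ν
    by_cases hν : ν ∈ X ∧ (A ν).Nonempty
    swap
    · exact ⟨V, fun a b => absurd ⟨a, b⟩ hν⟩
    obtain ⟨hν, ω0, c1, c2⟩ := hν
    have hAν : A ν = p ν ⁻¹' {p ν ω0} := by
      ext ω
      constructor
      · rintro ⟨d1, d2⟩
        exact he ν hν d1 c1 (d2.trans c2.symm)
      · intro d
        have d' : p ν ω = p ν ω0 := d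
        exact ⟨d' ▸ c1, d' ▸ c2⟩
    have hat := hp ν _ ((hsmall ν hν).trans_lt (by
      rw [Cardinal.mk_set (α := Set (Iio ν) × Bool)]
      exact Cardinal.cantor _)) _ c1
    rw [← hAν] at hat c1
    simp only [Pos, hval] at hat c1
    obtain ⟨W, hW⟩ := exists_uf (fun B => Fl U f π ν X ((A ν)ᶜ ∪ B))
      ⟨univ, univ_mem, fun ω _ _ => Or.inr trivial⟩
      (fun B B' a b => a.mono (union_subset_union_right _ b))
      (fun B B' a b => (a.inter h.1 b).mono (by rw [union_inter_distrib_left])) (fun B => by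
        constructor
        · intro a
          by_contra b
          refine hat B ⟨fun c => a (c.mono ?_), fun c => b (c.mono ?_)⟩
          · rw [compl_inter]
          · rw [Set.sdiff_eq, compl_inter, compl_compl]
        · intro a b
          refine c1 ((a.inter h.1 b).mono ?_)
          rw [← union_inter_distrib_left, inter_compl_self, union_empty])
    exact ⟨W, fun _ _ => hW⟩
  choose W hW using hW
  have hgood : {ν | ν ∈ X ∧ (A ν).Nonempty} ∈ U := by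
    refine inter_mem hX ?_
    have : {ν | (A ν).Nonempty} ∈ V.map π :=
      Ultrafilter.mem_map.2 (mem_of_superset hA fun ω hω => ⟨ω, hω⟩)
    rw [hπ] at this
    exact this
  refine ⟨W, Ultrafilter.coe_le_coe.1 fun B hB => ?_, mem_of_superset hgood ?_⟩
  · have h1 : {ν | B ∈ W ν} ∈ U := hB
    have h2 := fl_mem hU h hπ hX (A := fun ν => (A ν)ᶜ ∪ B)
      (mem_of_superset (inter_mem hgood h1) fun ν hν => (hW ν hν.1.1 hν.1.2 B).1 hν.2)
    exact mem_of_superset (inter_mem h2 hA) fun ω hω => hω.1.resolve_left (not_not.2 hω.2)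
  · rintro ν ⟨c1, c2⟩
    refine ⟨(hW ν c1 c2 _).2 ⟨univ, univ_mem, fun ω _ d => Or.inr d⟩,
      fun Z => f (base ν X Z) ∩ {ω | π ω = ν} ∩ A ν, fun Z Z' hZ => ?_, fun Z hZ => ?_,
      fun B hB => ?_⟩
    · exact inter_subset_inter_left _ (inter_subset_inter_left _ (h.1 (base_mono hZ)))
    · refine (hW ν c1 c2 _).2 ⟨Z, hZ, fun ω d1 d2 => ?_⟩
      by_cases d3 : ω ∈ A ν
      · exact Or.inr ⟨⟨d1, d2⟩, d3⟩
      · exact Or.inl d3
    · obtain ⟨Z, d1, d2⟩ := (hW ν c1 c2 _).1 hB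
      exact ⟨Z, d1, fun ω hω => (d2 ω hω.1.1 hω.1.2).resolve_left (not_not.2 hω.2)⟩

theorem decomp (hU : NM U) (h : TK U V f) : (∃ ω, V = pure ω) ∨ ∃ (π : Ω → K)
    (W : K → Ultrafilter Ω), V = U.bind W ∧
      {ν | {ω | π ω = ν} ∈ W ν ∧ ∃ g, TK U (W ν) g} ∈ U := by
  classical
  by_cases hc : ∃ φ : Ω → K, ∀ y, {ω | φ ω = y} ∉ V
  · obtain ⟨π, h1, h2⟩ := exists_min (h.cpl hU.cnt) hc
    refine Or.inr ⟨π, decomp0 hU h (eq_of_normal hU (f := fun X => π '' f X)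
      ⟨fun X X' e => image_mono (h.1 e), fun X hX => ?_, fun A hA => ?_⟩ h1
      fun g hg => h2 (g ∘ π) hg) h2⟩
    · exact Ultrafilter.mem_map.2 (mem_of_superset (h.2.1 X hX) (subset_preimage_image π _))
    · obtain ⟨X, a, b⟩ := h.2.2 _ (Ultrafilter.mem_map.1 hA)
      exact ⟨X, a, image_subset_iff.2 b⟩
  · push Not at hc
    obtain ⟨ω, hω⟩ := V.nonempty_of_mem ((cpl_of_const hc).set
      (fun X => if X ∈ U then f X else univ) fun X => by
        split_ifs with e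
        · exact h.2.1 X e
        · exact univ_mem)
    refine Or.inl ⟨ω, (Ultrafilter.coe_le_coe.1 fun A hA => ?_).symm⟩
    obtain ⟨X, a, b⟩ := h.2.2 A hA
    have := mem_iInter.1 hω X
    rw [if_pos a] at this
    exact b this

omit [LinearOrder K] [WellFoundedLT K] in
theorem map_cons {W : K → Ultrafilter Ω} {n : ℕ} {g : K → Ω → List K}
    (h : {ν | {ω | π ω = ν} ∈ W ν ∧ (W ν).map (g ν) = fub U n} ∈ U) :
    (U.bind W).map (fun ω => π ω :: g (π ω) ω) = fub U (n + 1) := by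
  refine Ultrafilter.coe_le_coe.1 fun A hA => ?_
  have h1 : {a | List.cons a ⁻¹' A ∈ fub U n} ∈ U := hA
  refine Ultrafilter.mem_map.2 (mem_bind_iff.2 (mem_of_superset (inter_mem h h1) ?_))
  rintro ν ⟨⟨a, b⟩, c⟩
  have c' : List.cons ν ⁻¹' A ∈ fub U n := c
  rw [← b] at c'
  refine mem_of_superset (inter_mem a (Ultrafilter.mem_map.1 c')) ?_
  rintro ω ⟨d, e⟩
  have d' : π ω = ν := d
  simp only [mem_preimage, d']
  exact e

/-- Rudin-Keisler equivalence with a Fubini power -/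
def RK (U : Ultrafilter K) (V : Ultrafilter Ω) (n : ℕ) : Prop :=
  (∃ a : List K → Ω, (fub U n).map a = V) ∧ ∃ b : Ω → List K, V.map b = fub U n

theorem bad_step (hU : NM U) (V : Ultrafilter Ω) : ∃ (π : Ω → K) (W : K → Ultrafilter Ω),
    ((∃ g, TK U V g) ∧ ∀ n, ¬ RK U V n) → V = U.bind W ∧
      {ν | {ω | π ω = ν} ∈ W ν ∧ (∃ g, TK U (W ν) g) ∧ ∀ n, ¬ RK U (W ν) n} ∈ U := by
  obtain ⟨k0, -⟩ := U.nonempty_of_mem univ_mem
  obtain ⟨ω0, -⟩ := V.nonempty_of_mem univ_mem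
  by_cases hb : (∃ g, TK U V g) ∧ ∀ n, ¬ RK U V n
  swap
  · exact ⟨fun _ => k0, fun _ => V, fun h' => absurd h' hb⟩
  obtain ⟨⟨g, hg⟩, hb⟩ := hb
  rcases decomp hU hg with ⟨ω, rfl⟩ | ⟨π, W, h1, h2⟩
  · exact absurd ⟨⟨fun _ => ω, rfl⟩, fun _ => [], rfl⟩ (hb 0)
  refine ⟨π, W, fun _ => ⟨h1, ?_⟩⟩
  have h3 := hU.cnt (fun n => {ν | ¬ RK U (W ν) n}) fun n => by
    refine Ultrafilter.compl_mem_iff_notMem.2 fun h4 => hb (n + 1) ?_
    have h5 : ∀ ν, ∃ (a : List K → Ω) (b : Ω → List K), RK U (W ν) n →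
        (fub U n).map a = W ν ∧ (W ν).map b = fub U n := by
      intro ν
      by_cases e : RK U (W ν) n
      · obtain ⟨⟨a, ha⟩, b, hb⟩ := e
        exact ⟨a, b, fun _ => ⟨ha, hb⟩⟩
      · exact ⟨fun _ => ω0, fun _ => [], fun e' => absurd e' e⟩
    choose a b hab using h5
    refine ⟨⟨fun l => a (l.headD k0) l.tail, ?_⟩, _, h1 ▸ map_cons (π := π) (g := b)
      (mem_of_superset (inter_mem h2 h4) fun ν hν => ⟨hν.1.1, (hab ν hν.2).2⟩)⟩
    rw [h1]
    refine Ultrafilter.coe_le_coe.1 fun A hA => ?_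
    have h6 : {ν | A ∈ W ν} ∈ U := hA
    refine Ultrafilter.mem_map.2 (mem_bind_iff.2 (mem_of_superset (inter_mem h4 h6) ?_))
    rintro ν ⟨c, d⟩
    have d' : A ∈ W ν := d
    rw [← (hab ν c).1] at d'
    exact d'
  exact mem_of_superset (inter_mem h2 h3) fun ν hν => ⟨hν.1.1, hν.1.2, mem_iInter.1 hν.2⟩

theorem dichotomy (hU : NM U) (h : TK U V f) : (∃ n, RK U V n) ∨
    ∃ s : Ω → ℕ → K, ∀ n, V.map (fun ω => List.ofFn fun i : Fin n => s ω i) = fub U n := by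
  rw [or_iff_not_imp_left]
  intro hb
  push Not at hb
  choose π W hW using bad_step (Ω := Ω) hU
  let s : ℕ → Ultrafilter Ω → Ω → K := fun n =>
    Nat.rec π (fun _ t V ω => t (W V (π V ω)) ω) n
  have key : ∀ n (V : Ultrafilter Ω), ((∃ g, TK U V g) ∧ ∀ n, ¬ RK U V n) →
      V.map (fun ω => List.ofFn fun i : Fin n => s i V ω) = fub U n := by
    intro n
    induction n with
    | zero =>
      intro V _
      refine Ultrafilter.coe_le_coe.1 fun A hA => ?_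
      have : [] ∈ A := hA
      exact Ultrafilter.mem_map.2 (univ_mem' fun ω => this)
    | succ n ih =>
      intro V hV
      obtain ⟨h1, h2⟩ := hW V hV
      have h3 := map_cons (π := π V) (W := W V)
        (g := fun ν ω => List.ofFn fun i : Fin n => s i (W V ν) ω)
        (mem_of_superset h2 fun ν hν => ⟨hν.1, ih _ hν.2⟩)
      rw [← h1] at h3
      rw [← h3]
      congr 1
      funext ω
      rw [List.ofFn_succ]
      rfl
  exact ⟨fun ω n => s n V ω, fun n => key n V ⟨⟨f, h⟩, hb⟩⟩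

omit [WellFoundedLT K] in
theorem nm_of (h0 : ℵ₀ < #K) (h1 : ∀ x : K, #(Iio x) < #K)
    (h2 : ∀ S : Set (Set K), #S < #K → (∀ s ∈ S, s ∈ U) → ⋂₀ S ∈ U)
    (h3 : ∀ s : Set K, s ∈ U → #s = #K)
    (h4 : ∀ f : K → K, {x | f x < x} ∈ U → ∃ y : K, {x | f x = y} ∈ U) : NM U := by
  have key : ∀ T : Type, #T < #K → Cpl U T := fun T hT A hA =>
    h2 (range A) (Cardinal.mk_range_le.trans_lt hT) (by rintro _ ⟨t, rfl⟩; exact hA t)
  refine ⟨fun x => key _ (h1 x), key _ (by simpa using h0), fun y hy => ?_, h4⟩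
  have := h3 _ hy
  rw [ofPred_eq_eq_singleton, Cardinal.mk_singleton] at this
  rw [← this] at h0
  exact absurd h0 (not_lt.2 Cardinal.one_le_aleph0)

omit [LinearOrder K] [WellFoundedLT K] in
theorem tk_of (g : Set K → Set Ω) (h1 : ∀ A ∈ U, g A ∈ V)
    (h2 : ∀ A ∈ U, ∀ B ∈ U, B ⊆ A → g B ⊆ g A) (h3 : ∀ Y ∈ V, ∃ A ∈ U, g A ⊆ Y) :
    TK U V fun X => {ω | ∃ Z ∈ U, Z ⊆ X ∧ ω ∈ g Z} := by
  refine ⟨fun X X' e ω ⟨Z, a, b, c⟩ => ⟨Z, a, b.trans e, c⟩,
    fun X hX => mem_of_superset (h1 X hX) fun ω hω => ⟨X, hX, subset_rfl, hω⟩, fun Y hY => ?_⟩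
  obtain ⟨A, a, b⟩ := h3 Y hY
  exact ⟨A, a, fun ω ⟨Z, c, d, e⟩ => b (h2 A a Z c d e)⟩

end Pool.Agent.H278Z.Tk
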